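import Pool.Agent.PSS.StmtsS5
import Pool.Agent.Helper77_PSS.NRF

/-!
# Squad PSS, row RTN (helper97): the Brauer map of a relative trace
-/

set_option autoImplicit false

open scoped BigOperators TensorProduct

noncomputable section

namespace Pool.Agent.PSS.S5.H97

open Pool.Agent.PFC (tw IsTv)
open Pool.Agent.PFD.D2b (FrR)
open Pool.Agent.PSS.H77N (BKR_cw rsA)

variable {R V A B : Type} [CommRing R] [CommGroup V] [Ring A] [Algebra R A] [Ring B] [Algebra R B]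

/-- an element which commutes with `V` is fixed by `twW W 1` -/
theorem cw_tw {α : V →* A} {z : A} (hz : z ∈ FxR (cw R α) ⊤) (W : Subgroup V) :
    z ∈ FxR (bw R α) (twW W (1 : MulAut W)) := by
  rw [mem_tw]
  intro w
  exact mem_cw.1 hz (w : V) trivial

set_option linter.unusedSectionVars false

variable [Fintype V] {Ω : Type} [Fintype Ω] [MulAction (V × V) Ω] {α : V →* A} {lam : A →ₗ[R] R}
  {b d : Ω → A}

/-- the product of three terms -/
theorem three {W : Subgroup V} (N : IsNW R α W B) (hD : DFr R α lam b d) {ε : MulAut W} {ω : Ω}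
    (h : twW W ε ≤ MulAction.stabilizer (V × V) ω) {z : A} (hz : z ∈ FxR (cw R α) ⊤) :
    N.β 1 (b ω * z * d ω) = N.β ε (b ω) * N.β 1 z * N.β ε⁻¹ (d ω) := by
  have h1 := H77N.fx_b hD (⟨ω, h⟩ : Fp Ω (twW W ε))
  have h2 := H77N.fx_d hD (⟨ω, h⟩ : Fp Ω (twW W ε))
  have h3 := cw_tw hz W
  have h4 : b ω * z ∈ FxR (bw R α) (twW W ε) := by
    rw [mem_tw]
    intro w
    have h5 : α ((ε w : W) : V) * b ω = b ω * α (w : V) := (mem_tw α W ε).1 h1 w
    have h6 : α (w : V) * z = z * α (w : V) := (mem_tw α W 1).1 h3 w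
    rw [← mul_assoc, h5, mul_assoc, h6, mul_assoc]
  have e1 := N.mul ε ε⁻¹ _ h4 _ h2
  have e2 := N.mul ε 1 _ h1 _ h3
  rw [mul_inv_cancel] at e1
  rw [mul_one] at e2
  rw [e1, e2]

/-- RTN -/
theorem rtn (hDFR : DfrStmt) (hDRF : DrfStmt) (hRFU : RfuStmt) (hQOR : QorStmt) : RtnStmt := by
  classical
  intro ℓ hℓ F V E A B K _ _ _ _ _ _ _ _ _ _ φ α lam x y W N hV hW hP hRF z hz
  obtain ⟨Ω, iF, iA, b, c, hF, hst⟩ := hP
  obtain ⟨d, hcd, hD⟩ := hDFR F V E A K Ω φ α lam x y b c hRF hF hst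
  have e1 := hRFU F V A K (Qt (V := V) Ω) α lam x y _ _ hRF (hDRF F V A Ω α lam b d hD) z hz
  have e2 := hQOR F V A Ω α lam b d hD W z hz
  rw [BKR_cw] at e2
  have e3 := (N.ker 1 _ (BKR_le_FxR e2)).2 e2
  rw [map_sub, sub_eq_zero] at e3
  rw [e1, e3, map_sum]
  refine Submodule.sum_mem _ ?_
  rintro ⟨q, hq⟩ _
  obtain ⟨e, S, hS⟩ := hst q.rep
  have hinv : ∀ w ∈ W, (φ e)⁻¹ w ∈ W := by
    intro w hw
    rw [← map_inv]
    exact hW e⁻¹ w hw
  have h1 : twW W (rsA (φ e) W (hW e) hinv) ≤ MulAction.stabilizer (V × V) q.rep := by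
    rintro _ ⟨w, rfl⟩
    have h2 : ((φ e (w : V), 1) : V × V) • q = q :=
      hq ⟨hW e w w.2, Subgroup.mem_bot.2 rfl⟩
    rw [← q.mk_rep, smul_qmk, qmk_eq] at h2
    obtain ⟨v, hv⟩ := h2
    rw [smul_smul, Prod.mk_mul_mk, one_mul, mul_one] at hv
    have h3 : ((φ e (w : V), v) : V × V) ∈ MulAction.stabilizer (V × V) q.rep := hv
    rw [hS] at h3 ⊢
    obtain ⟨s, hs, h4⟩ := h3
    have h5 : φ e s = φ e w := congrArg Prod.fst h4
    have h6 : s = w := (φ e).injective h5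
    subst h6
    exact ⟨(w : V), hs, rfl⟩
  apply Submodule.subset_span
  exact ⟨_, _, three N hD h1 hz⟩

end Pool.Agent.PSS.S5.H97
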